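import Mathlib

/-!
# Alternating forms with rational and with larger coefficients
-/

set_option linter.unusedSectionVars false

namespace Pool.Agent.Y91.TT

open Module

variable {n : ℕ} {d : Fin n → ℕ} {k : ℕ}

/-- The homology of a product of abelian varieties of dimensions `d j`, with coefficients `F`. -/
abbrev HV (F : Type) (d : Fin n → ℕ) : Type := ∀ j, Fin (d j) ⊕ Fin (d j) → F

section cast

variable (F : Type) [Field F] [CharZero F]

/-- A rational vector as a vector with coefficients in `F`. -/
def castV (w : HV ℚ d) : HV F d := fun j b => ((w j b : ℚ) : F)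

/-- The indices of the coordinates. -/
abbrev Ix (d : Fin n → ℕ) : Type := Σ j, (Fin (d j) ⊕ Fin (d j))

/-- The basis vectors. -/
def eV (p : Ix d) : HV F d := Pi.single p.1 (Pi.single p.2 1)

/-- The basis. -/
noncomputable def bV : Basis (Ix d) F (HV F d) := Pi.basis fun j => Pi.basisFun F _

theorem bV_apply (p : Ix d) : bV F p = eV F p := by
  unfold bV eV
  rw [Pi.basis_apply, Pi.basisFun_apply]

theorem castV_eV (p : Ix d) : castV F (eV ℚ p) = eV F p := by
  funext j b
  unfold castV eV
  obtain ⟨i, c⟩ := p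
  by_cases h : j = i
  · subst h
    rw [Pi.single_eq_same, Pi.single_eq_same]
    by_cases h2 : b = c
    · subst h2
      rw [Pi.single_eq_same, Pi.single_eq_same, Rat.cast_one]
    · rw [Pi.single_eq_of_ne h2, Pi.single_eq_of_ne h2, Rat.cast_zero]
  · rw [Pi.single_eq_of_ne h, Pi.single_eq_of_ne h, Pi.zero_apply, Pi.zero_apply, Rat.cast_zero]

theorem castV_update (w : Fin k → HV ℚ d) (l : Fin k) (x : HV ℚ d) :
    (fun i => castV F (Function.update w l x i)) =
      Function.update (fun i => castV F (w i)) l (castV F x) := by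
  funext i
  by_cases h : i = l
  · subst h
    rw [Function.update_self, Function.update_self]
  · rw [Function.update_of_ne h, Function.update_of_ne h]

theorem castV_add (x y : HV ℚ d) : castV F (x + y) = castV F x + castV F y := by
  funext j b
  simp [castV]

theorem castV_smul (r : ℚ) (x : HV ℚ d) : castV F (r • x) = (r : F) • castV F x := by
  funext j b
  simp [castV]

end cast

section expand

variable {F : Type} [Field F] [CharZero F] {H : Type} [AddCommGroup H] [Module F H]

/-- The coordinate monomials. -/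
noncomputable def mon (F : Type) [Field F] (I : Fin k → Ix d) :
    MultilinearMap F (fun _ : Fin k => HV F d) F :=
  (MultilinearMap.mkPiAlgebra F (Fin k) F).compLinearMap
    (fun l => (LinearMap.proj (R := F) (φ := fun _ : Fin (d (I l).1) ⊕ Fin (d (I l).1) => F)
      (I l).2).comp (LinearMap.proj (R := F) (φ := fun j => Fin (d j) ⊕ Fin (d j) → F) (I l).1))

theorem mon_apply (I : Fin k → Ix d) (v : Fin k → HV F d) :
    mon F I v = ∏ l, v l (I l).1 (I l).2 := by
  unfold mon
  rw [MultilinearMap.compLinearMap_apply, MultilinearMap.mkPiAlgebra_apply]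
  rfl

theorem mon_eV (I J : Fin k → Ix d) : mon F I (fun l => eV F (J l)) = if I = J then 1 else 0 := by
  rw [mon_apply]
  split_ifs with h
  · subst h
    refine Finset.prod_eq_one fun l _ => ?_
    unfold eV
    rw [Pi.single_eq_same, Pi.single_eq_same]
  · obtain ⟨l, hl⟩ := Function.ne_iff.1 h
    refine Finset.prod_eq_zero (Finset.mem_univ l) ?_
    unfold eV
    by_cases h1 : (I l).1 = (J l).1
    · have h2 : ∀ (p q : Ix d), p.1 = q.1 → p ≠ q →
          (Pi.single q.1 (Pi.single q.2 (1 : F)) : HV F d) p.1 p.2 = 0 := by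
        rintro ⟨i, a⟩ ⟨j, b⟩ h3 h4
        simp only at h3
        subst h3
        simp only [Pi.single_eq_same]
        refine Pi.single_eq_of_ne ?_ _
        rintro rfl
        exact h4 rfl
      exact h2 _ _ h1 hl
    · rw [Pi.single_eq_of_ne h1, Pi.zero_apply]

/-- A multilinear map is given by its values on the basis vectors. -/
theorem expand (φ : MultilinearMap F (fun _ : Fin k => HV F d) H) (v : Fin k → HV F d) :
    φ v = ∑ I : Fin k → Ix d, (∏ l, v l (I l).1 (I l).2) • φ (fun l => eV F (I l)) := by
  have h : φ = ∑ I : Fin k → Ix d, (mon F I).smulRight (φ (fun l => eV F (I l))) := by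
    refine Basis.ext_multilinear (fun _ => bV F) fun J => ?_
    simp only [bV_apply]
    rw [_root_.sum_apply, Finset.sum_eq_single J]
    · rw [MultilinearMap.smulRight_apply, mon_eV, if_pos rfl, one_smul]
    · intro I _ hI
      rw [MultilinearMap.smulRight_apply, mon_eV, if_neg hI, zero_smul]
    · intro h
      exact absurd (Finset.mem_univ _) h
  have h2 := congrArg (fun ψ => ψ v) h
  simp only [_root_.sum_apply, MultilinearMap.smulRight_apply, mon_apply] at h2
  exact h2

end expand

section ext

variable (F : Type) [Field F] [CharZero F] {H : Type} [AddCommGroup H] [Module F H]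

/-- Multilinear maps which agree on rational vectors are equal. -/
theorem ext_rat {φ ψ : MultilinearMap F (fun _ : Fin k => HV F d) H}
    (h : ∀ w : Fin k → HV ℚ d, φ (fun l => castV F (w l)) = ψ (fun l => castV F (w l))) :
    φ = ψ := by
  refine Basis.ext_multilinear (fun _ => bV F) fun J => ?_
  simp only [bV_apply]
  have h1 := h fun l => eV ℚ (J l)
  simp only [castV_eV] at h1
  exact h1

/-- A rational alternating form extends to an alternating form. -/
theorem exists_ext (f : HV ℚ d [⋀^Fin k]→ₗ[ℚ] ℚ) :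
    ∃ f' : HV F d [⋀^Fin k]→ₗ[F] F, ∀ w : Fin k → HV ℚ d,
      f' (fun l => castV F (w l)) = ((f w : ℚ) : F) := by
  classical
  let φ : MultilinearMap F (fun _ : Fin k => HV F d) F :=
    ∑ I : Fin k → Ix d, ((f (fun l => eV ℚ (I l)) : ℚ) : F) • mon F I
  have hφ : ∀ w : Fin k → HV ℚ d, φ (fun l => castV F (w l)) = ((f w : ℚ) : F) := by
    intro w
    have h1 := expand (F := ℚ) f.toMultilinearMap w
    change f w = _ at h1
    rw [h1]
    change (∑ I : Fin k → Ix d, ((f (fun l => eV ℚ (I l)) : ℚ) : F) • mon F I) _ = _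
    rw [_root_.sum_apply]
    push_cast
    refine Finset.sum_congr rfl fun I _ => ?_
    change ((f (fun l => eV ℚ (I l)) : ℚ) : F) * mon F I (fun l => castV F (w l)) = _
    rw [mon_apply, smul_eq_mul, Rat.cast_mul, Rat.cast_prod, mul_comm]
    rfl
  refine ⟨((k.factorial : F))⁻¹ • MultilinearMap.alternatization φ, fun w => ?_⟩
  rw [AlternatingMap.smul_apply, MultilinearMap.alternatization_apply]
  have h1 : ∀ σ : Equiv.Perm (Fin k), (Equiv.Perm.sign σ) •
      (φ.domDomCongr σ) (fun l => castV F (w l)) = ((f w : ℚ) : F) := by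
    intro σ
    rw [MultilinearMap.domDomCongr_apply]
    have h2 := hφ fun i => w (σ i)
    rw [h2]
    have h3 : f (fun i => w (σ i)) = Equiv.Perm.sign σ • f w := f.map_perm w σ
    rw [h3]
    rcases Int.units_eq_one_or (Equiv.Perm.sign σ) with h | h <;> simp [h, Units.smul_def]
  rw [Finset.sum_congr rfl (fun σ _ => h1 σ), Finset.sum_const, Finset.card_univ,
    Fintype.card_perm, Fintype.card_fin, nsmul_eq_mul, smul_eq_mul, ← mul_assoc,
    inv_mul_cancel₀ (Nat.cast_ne_zero.2 (Nat.factorial_ne_zero k)), one_mul]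

end ext

theorem alt_sum_apply {R M N κ ι : Type} [Field R] [AddCommGroup M] [Module R M]
    [AddCommGroup N] [Module R N] (s : Finset ι) (f : ι → M [⋀^κ]→ₗ[R] N) (v : κ → M) :
    (∑ i ∈ s, f i) v = ∑ i ∈ s, f i v := by
  classical
  induction s using Finset.induction_on with
  | empty => simp
  | insert a s ha ih => rw [Finset.sum_insert ha, Finset.sum_insert ha, AlternatingMap.add_apply, ih]

section rat

variable {F : Type} [Field F] [CharZero F] {H : Type} [AddCommGroup H] [Module F H]

/-- The restriction of an alternating map to the rational vectors. -/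
def restr [Module ℚ H] (hc : ∀ (r : ℚ) (x : H), r • x = (r : F) • x)
    (f : HV F d [⋀^Fin k]→ₗ[F] H) : HV ℚ d [⋀^Fin k]→ₗ[ℚ] H where
  toFun w := f (fun l => castV F (w l))
  map_update_add' := by
    intro inst w l x y
    have h : inst = instDecidableEqFin k := Subsingleton.elim _ _
    subst h
    rw [castV_update, castV_update, castV_update, castV_add, f.map_update_add]
  map_update_smul' := by
    intro inst w l r x
    have h : inst = instDecidableEqFin k := Subsingleton.elim _ _
    subst h
    rw [castV_update, castV_update, castV_smul, f.map_update_smul, hc]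
  map_eq_zero_of_eq' := by
    intro w i j hij hne
    exact f.map_eq_zero_of_eq _ (by
      change castV F (w i) = castV F (w j)
      rw [hij]) hne

theorem restr_apply [Module ℚ H] (hc : ∀ (r : ℚ) (x : H), r • x = (r : F) • x)
    (f : HV F d [⋀^Fin k]→ₗ[F] H) (w : Fin k → HV ℚ d) :
    restr hc f w = f (fun l => castV F (w l)) := rfl

/-- **Descent.** If all rational functionals of an alternating map are in the span of the set
`G`, then the map is a sum of products of linearly independent elements of `G` and vectors. -/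
theorem exists_decomposition [Module ℚ H] (φ : HV ℚ d [⋀^Fin k]→ₗ[ℚ] H)
    (G : Set (HV ℚ d [⋀^Fin k]→ₗ[ℚ] ℚ))
    (hG : ∀ lam : H →ₗ[ℚ] ℚ, lam.compAlternatingMap φ ∈ Submodule.span ℚ G) :
    ∃ (N : ℕ) (D : Fin N → HV ℚ d [⋀^Fin k]→ₗ[ℚ] ℚ) (h : Fin N → H),
      (∀ j, D j ∈ G) ∧ LinearIndependent ℚ D ∧ ∀ w, φ w = ∑ j, D j w • h j := by
  classical
  obtain ⟨b, hbG, hspan, hli⟩ := exists_linearIndependent ℚ G
  have hfd : FiniteDimensional ℚ (HV ℚ d [⋀^Fin k]→ₗ[ℚ] ℚ) := by
    let T : (HV ℚ d [⋀^Fin k]→ₗ[ℚ] ℚ) →ₗ[ℚ] ((Fin k → Ix d) → ℚ) :=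
      { toFun := fun f I => f (fun l => eV ℚ (I l))
        map_add' := fun f f' => rfl
        map_smul' := fun r f => rfl }
    refine FiniteDimensional.of_injective T fun f f' hff => ?_
    apply AlternatingMap.coe_multilinearMap_injective
    refine MultilinearMap.ext fun w => ?_
    have h2 := expand (F := ℚ) f.toMultilinearMap w
    have h3 := expand (F := ℚ) f'.toMultilinearMap w
    change f w = _ at h2
    change f' w = _ at h3
    change f w = f' w
    rw [h2, h3]
    refine Finset.sum_congr rfl fun I _ => ?_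
    have h1 : f (fun l => eV ℚ (I l)) = f' (fun l => eV ℚ (I l)) := congrFun hff I
    change _ • f _ = _ • f' _
    rw [h1]
  have hfin : Finite b := hli.finite
  have : Fintype b := Fintype.ofFinite b
  -- the values
  let T : Submodule ℚ H := Submodule.span ℚ (Set.range fun I : Fin k → Ix d =>
    φ (fun l => eV ℚ (I l)))
  have hT : FiniteDimensional ℚ T := FiniteDimensional.span_of_finite ℚ (Set.finite_range _)
  have hφT : ∀ w, φ w ∈ T := by
    intro w
    have h1 := expand (F := ℚ) φ.toMultilinearMap w
    change φ w = _ at h1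
    rw [h1]
    exact Submodule.sum_mem _ fun I _ => Submodule.smul_mem _ _ (Submodule.subset_span ⟨I, rfl⟩)
  let e := finBasis ℚ T
  choose lam hlam using fun i => LinearMap.exists_extend (e.coord i)
  have hφ : ∀ w, φ w = ∑ i, lam i (φ w) • (e i : H) := by
    intro w
    have h1 := e.sum_repr ⟨φ w, hφT w⟩
    have h2 := congrArg (fun x : T => (x : H)) h1
    simp only [Submodule.coe_sum, Submodule.coe_smul] at h2
    rw [← h2]
    refine Finset.sum_congr rfl fun i _ => ?_
    have h3 := congrArg (fun f => f ⟨φ w, hφT w⟩) (hlam i)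
    change lam i (φ w) = e.coord i _ at h3
    rw [h2, h3]
    rfl
  have hc : ∀ i, ∃ c : b → ℚ, (lam i).compAlternatingMap φ = ∑ x, c x • (x : HV ℚ d [⋀^Fin k]→ₗ[ℚ] ℚ) := by
    intro i
    have h1 := hG (lam i)
    rw [← hspan] at h1
    have h2 : b = Set.range (Subtype.val : b → HV ℚ d [⋀^Fin k]→ₗ[ℚ] ℚ) := by
      rw [Subtype.range_coe]
    rw [h2, Submodule.mem_span_range_iff_exists_fun] at h1
    obtain ⟨c, hc⟩ := h1
    exact ⟨c, hc.symm⟩
  choose c hc using hc
  let eb : Fin (Fintype.card b) ≃ b := (Fintype.equivFin b).symm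
  refine ⟨Fintype.card b, fun j => (eb j : HV ℚ d [⋀^Fin k]→ₗ[ℚ] ℚ), fun j => ∑ i, c i (eb j) • (e i : H),
    fun j => hbG (eb j).2, hli.comp eb eb.injective, fun w => ?_⟩
  rw [hφ w]
  have h1 : ∀ i, lam i (φ w) = ∑ x : b, c i x * (x : HV ℚ d [⋀^Fin k]→ₗ[ℚ] ℚ) w := by
    intro i
    have h2 := congrArg (fun f => f w) (hc i)
    simp only [LinearMap.compAlternatingMap_apply, alt_sum_apply,
      AlternatingMap.smul_apply, smul_eq_mul] at h2
    exact h2
  simp only [h1, Finset.sum_smul, Finset.smul_sum]
  rw [Finset.sum_comm, ← Equiv.sum_comp eb]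
  refine Finset.sum_congr rfl fun j _ => Finset.sum_congr rfl fun i _ => ?_
  rw [mul_smul, smul_comm]

/-- Linear independence with vector coefficients. -/
theorem coeff_zero [Module ℚ H] {N : ℕ} {D : Fin N → HV ℚ d [⋀^Fin k]→ₗ[ℚ] ℚ}
    (hli : LinearIndependent ℚ D) {u : Fin N → H} (hu : ∀ w, ∑ j, D j w • u j = 0) (j : Fin N) :
    u j = 0 := by
  by_contra hne
  obtain ⟨lam, hlam⟩ : ∃ lam : H →ₗ[ℚ] ℚ, lam (u j) ≠ 0 := by
    by_contra hcon
    push Not at hcon
    exact hne ((Module.forall_dual_apply_eq_zero_iff ℚ (u j)).1 hcon)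
  apply hlam
  have h1 : ∑ i, lam (u i) • D i = 0 := by
    refine AlternatingMap.ext fun w => ?_
    have h2 := congrArg lam (hu w)
    rw [map_sum, map_zero] at h2
    rw [alt_sum_apply, AlternatingMap.zero_apply, ← h2]
    refine Finset.sum_congr rfl fun i _ => ?_
    rw [map_smul, smul_eq_mul, mul_comm, AlternatingMap.smul_apply, smul_eq_mul]
  exact Fintype.linearIndependent_iff.1 hli _ h1 j

end rat

end Pool.Agent.Y91.TT
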