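import Mathlib
import Pool.Agent.Y91.TT.Lin

/-!
# Products of alternating forms of degree two
-/

set_option linter.unusedSectionVars false

namespace Pool.Agent.Y91.TT

open Module

variable {F : Type} [Field F] {M : Type} [AddCommGroup M] [Module F M] {a k : ℕ}

theorem update_comp (π : Fin a × Fin 2 ≃ Fin k) (v : Fin k → M) (i : Fin k) (x : M) (l : Fin a) :
    (fun b => Function.update v i x (π (l, b))) =
      if l = (π.symm i).1 then Function.update (fun b => v (π (l, b))) (π.symm i).2 x
      else fun b => v (π (l, b)) := by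
  funext b
  split_ifs with h
  · by_cases hb : b = (π.symm i).2
    · have h1 : π (l, b) = i := by
        rw [h, hb]
        exact π.apply_symm_apply i
      rw [h1, hb, Function.update_self, Function.update_self]
    · have h1 : π (l, b) ≠ i := by
        rintro rfl
        rw [π.symm_apply_apply] at hb
        exact hb rfl
      rw [Function.update_of_ne h1, Function.update_of_ne hb]
  · have h1 : π (l, b) ≠ i := by
      rintro rfl
      rw [π.symm_apply_apply] at h
      exact h rfl
    rw [Function.update_of_ne h1]

/-- The product of forms of degree two. -/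
def prodM (π : Fin a × Fin 2 ≃ Fin k) (C : Fin a → M [⋀^Fin 2]→ₗ[F] F) :
    MultilinearMap F (fun _ : Fin k => M) F where
  toFun v := ∏ l, C l (fun b => v (π (l, b)))
  map_update_add' := by
    intro inst v i x y
    have h : inst = instDecidableEqFin k := Subsingleton.elim _ _
    subst h
    simp only [update_comp]
    rw [← Finset.mul_prod_erase _ _ (Finset.mem_univ (π.symm i).1),
      ← Finset.mul_prod_erase _ _ (Finset.mem_univ (π.symm i).1),
      ← Finset.mul_prod_erase _ _ (Finset.mem_univ (π.symm i).1)]
    rw [if_pos rfl, if_pos rfl, if_pos rfl, AlternatingMap.map_update_add, add_mul]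
    have e : ∀ z : M, ∏ l ∈ Finset.univ.erase (π.symm i).1,
        C l (if l = (π.symm i).1 then Function.update (fun b => v (π (l, b))) (π.symm i).2 z
          else fun b => v (π (l, b))) =
        ∏ l ∈ Finset.univ.erase (π.symm i).1, C l (fun b => v (π (l, b))) := by
      intro z
      refine Finset.prod_congr rfl fun l hl => ?_
      rw [if_neg (Finset.ne_of_mem_erase hl)]
    rw [e, e, e]
  map_update_smul' := by
    intro inst v i r x
    have h : inst = instDecidableEqFin k := Subsingleton.elim _ _
    subst h
    simp only [update_comp]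
    rw [← Finset.mul_prod_erase _ _ (Finset.mem_univ (π.symm i).1),
      ← Finset.mul_prod_erase _ _ (Finset.mem_univ (π.symm i).1)]
    rw [if_pos rfl, if_pos rfl, AlternatingMap.map_update_smul, smul_eq_mul, smul_eq_mul, mul_assoc]
    have e : ∀ z : M, ∏ l ∈ Finset.univ.erase (π.symm i).1,
        C l (if l = (π.symm i).1 then Function.update (fun b => v (π (l, b))) (π.symm i).2 z
          else fun b => v (π (l, b))) =
        ∏ l ∈ Finset.univ.erase (π.symm i).1, C l (fun b => v (π (l, b))) := by
      intro z
      refine Finset.prod_congr rfl fun l hl => ?_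
      rw [if_neg (Finset.ne_of_mem_erase hl)]
    rw [e, e]

theorem prodM_apply (π : Fin a × Fin 2 ≃ Fin k) (C : Fin a → M [⋀^Fin 2]→ₗ[F] F)
    (v : Fin k → M) : prodM π C v = ∏ l, C l ![v (π (l, 0)), v (π (l, 1))] := by
  change ∏ l, C l (fun b => v (π (l, b))) = _
  refine Finset.prod_congr rfl fun l _ => ?_
  congr 1
  funext b
  fin_cases b <;> rfl

/-- The exterior product of forms of degree two, as a multilinear map. -/
def wedM (e : Fin a × Fin 2 ≃ Fin k) (C : Fin a → M [⋀^Fin 2]→ₗ[F] F) :
    MultilinearMap F (fun _ : Fin k => M) F :=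
  ∑ σ : Equiv.Perm (Fin k), ((Equiv.Perm.sign σ : ℤ) : F) • prodM (e.trans σ) C

theorem wedM_apply (e : Fin a × Fin 2 ≃ Fin k) (C : Fin a → M [⋀^Fin 2]→ₗ[F] F)
    (v : Fin k → M) : wedM e C v = ∑ σ : Equiv.Perm (Fin k), ((Equiv.Perm.sign σ : ℤ) : F) *
      ∏ l, C l ![v (σ (e (l, 0))), v (σ (e (l, 1)))] := by
  unfold wedM
  rw [_root_.sum_apply]
  refine Finset.sum_congr rfl fun σ _ => ?_
  change ((Equiv.Perm.sign σ : ℤ) : F) * prodM (e.trans σ) C v = _
  rw [prodM_apply]
  rfl

end Pool.Agent.Y91.TT
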