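import Mathlib
import Pool.Agent.Y91.TT.Lin
import Pool.Agent.TH504.VY.Flat

/-!
# Spaces of tensors with a constant Hodge structure
-/

set_option linter.unusedSectionVars false

namespace Pool.Agent.Y91.TT

open Matrix Equiv Module Pool.Agent.H204R3.SP Pool.Agent.H204R3.CM Pool.Agent.H194R3.CM
  Pool.Agent.W437.HC Pool.Agent.W437.HD Pool.Agent.W437.HP Pool.Agent.W437.HR
  Pool.Agent.W548.Odd Pool.Agent.TH125.Small Pool.Agent.TH131.GHC Pool.Agent.TH504.VL
  Pool.Agent.TH504.VY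

noncomputable section

variable {n d : ℕ} {g : Fin n → ℕ} {U : Set (Fin d → ℂ)}
  {Z : ∀ i, (Fin d → ℂ) → Matrix (Fin (g i)) (Fin (g i)) ℂ} {t₀ : Fin d → ℂ} {k : ℕ}

/-- A rational space of tensors on which all Hodge operators of a very general family act by the same
operator consists of Hodge tensors. -/
theorem const_killed (h : VeryGood U Z t₀)
    (M : Submodule ℚ ((Fin k → Fin (NB g) ⊕ Fin (NB g)) → ℚ))
    (hM1 : ∀ x ∈ M, act (DZ (bigD ℂ (fun i => Z i t₀))) (cst ℂ x) ∈ cx M)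
    (hM2 : ∀ x ∈ M, ∀ t ∈ U, act (DZ (bigD ℂ (fun i => Z i t))) (cst ℂ x) =
      act (DZ (bigD ℂ (fun i => Z i t₀))) (cst ℂ x)) :
    ∀ x ∈ M, act (DZ (bigD ℂ (fun i => Z i t₀))) (cst ℂ x) = 0 := by
  classical
  let b0 := finBasis ℚ M
  let b : Fin (finrank ℚ M) → (Fin k → Fin (NB g) ⊕ Fin (NB g)) → ℚ := fun i => (b0 i).1
  have hb : ∀ i, b i ∈ M := fun i => (b0 i).2
  have hcx : cx M ≤ Submodule.span ℂ (Set.range fun i => cst ℂ (b i)) := by
    refine Submodule.span_le.2 ?_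
    rintro _ ⟨x, hx, rfl⟩
    have h1 := b0.sum_repr ⟨x, hx⟩
    have h2 := congrArg (fun y : M => (y : (Fin k → Fin (NB g) ⊕ Fin (NB g)) → ℚ)) h1
    simp only [Submodule.coe_sum, Submodule.coe_smul] at h2
    have h3 : cst ℂ x = ∑ i, (((b0.repr ⟨x, hx⟩) i : ℚ) : ℂ) • cst ℂ (b i) := by
      funext I
      have h4 : x I = ∑ i, (b0.repr ⟨x, hx⟩) i * b i I := by
        have h5 := congrFun h2 I
        rw [Finset.sum_apply] at h5
        exact h5.symm
      simp only [Finset.sum_apply, Pi.smul_apply, smul_eq_mul, cst_apply]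
      rw [h4]
      push_cast
      rfl
    rw [h3]
    exact Submodule.sum_mem _ fun i _ => Submodule.smul_mem _ _ (Submodule.subset_span ⟨i, rfl⟩)
  have hδ : ∀ j, ∃ c : Fin (finrank ℚ M) → ℂ,
      ∑ i, c i • cst ℂ (b i) = act (DZ (bigD ℂ (fun i => Z i t₀))) (cst ℂ (b j)) :=
    fun j => (Submodule.mem_span_range_iff_exists_fun ℂ).1 (hcx (hM1 _ (hb j)))
  choose δ hδ using hδ
  let F : (Fin k → Fin (NB g) ⊕ Fin (NB g)) × Fin (finrank ℚ M) → ℚ :=
    fun p => b p.2 p.1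
  let D' : Matrix (Fin (finrank ℚ M)) (Fin (finrank ℚ M)) ℂ := fun j i => -δ j i
  have hsl : ∀ j, sl j (cstX F) = cst ℂ (b j) := fun j => rfl
  have htot : ∀ t ∈ U, opD (Fin k) (Fin (finrank ℚ M)) (DZ (bigD ℂ (fun i => Z i t))) (cstX F) +
      opW (Fin k) (Fin (NB g) ⊕ Fin (NB g)) D' (cstX F) = 0 := by
    intro t ht
    refine ext_sl fun j => ?_
    rw [map_add, sl_opD, sl_opW, hsl, hM2 _ (hb j) t ht, ← hδ j, map_zero,
      ← Finset.sum_add_distrib]
    refine Finset.sum_eq_zero fun i _ => ?_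
    rw [hsl, ← add_smul]
    change (δ j i + -δ j i) • _ = _
    rw [add_neg_cancel, zero_smul]
  have h1 : ∀ t ∈ U, ∀ z ∈ cxX (Submodule.span ℚ {F}),
      opD (Fin k) (Fin (finrank ℚ M)) (DZ (bigD ℂ (fun i => Z i t))) z +
        opW (Fin k) (Fin (NB g) ⊕ Fin (NB g)) D' z ∈ cxX (Submodule.span ℚ {F}) := by
    intro t ht z hz
    obtain ⟨r, rfl⟩ := mem_cxX_span hz
    rw [map_smul, map_smul, ← smul_add, htot t ht, smul_zero]
    exact Submodule.zero_mem _
  have h2 := stable_of_moving (fun i => Z i t₀) (h.symm t₀ h.mem) (h.pos t₀ h.mem) h.pcs h.sim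
    (h1 t₀ h.mem) (fun i => by
      obtain ⟨s, hs, hne⟩ := h.mov i
      exact ⟨fun i => Z i s, h.symm s hs, h.pos s hs, h.lie s hs, h1 s hs, hne⟩)
  have h3 : opD (Fin k) (Fin (finrank ℚ M)) (DZ (bigD ℂ (fun i => Z i t₀))) (cstX F) = 0 :=
    opD_eq_zero (DZ_sq ((imM_bigD_posDef _ (h.pos t₀ h.mem)).isUnit.map Matrix.detMonoidHom))
      (DZ_conj _) (h2 _ (cstX_mem (Submodule.mem_span_singleton_self _)))
  have h4 : ∀ j, act (DZ (bigD ℂ (fun i => Z i t₀))) (cst ℂ (b j)) = 0 := by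
    intro j
    have h5 := congrArg (sl j) h3
    rw [sl_opD, map_zero] at h5
    exact h5
  intro x hx
  have h5 := hcx (cst_mem_cx hx)
  refine Submodule.span_induction (p := fun z _ => act (DZ (bigD ℂ (fun i => Z i t₀))) z = 0)
    ?_ (act_zero_right _) ?_ ?_ h5
  · rintro _ ⟨j, rfl⟩
    exact h4 j
  · intro y z _ _ hy hz
    rw [act_add_right, hy, hz, add_zero]
  · intro a y _ hy
    rw [act_smul_right, hy, smul_zero]

/-- Complex solutions of rational linear equations are combinations of rational solutions. -/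
theorem mem_cx_of {B : Type} [Fintype B] [DecidableEq B] {κ : Type} [Fintype κ] [DecidableEq κ]
    (M : Submodule ℚ ((κ → B) → ℚ)) {y : (κ → B) → ℂ}
    (h : ∀ lam : ℂ →ₗ[ℚ] ℚ, (fun I => lam (y I)) ∈ M) : y ∈ cx M := by
  classical
  let T : Submodule ℚ ℂ := Submodule.span ℚ (Set.range y)
  have hT : FiniteDimensional ℚ T := FiniteDimensional.span_of_finite ℚ (Set.finite_range _)
  let e := finBasis ℚ T
  choose lam hlam using fun i => LinearMap.exists_extend (e.coord i)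
  have hy : y = ∑ i, (e i : ℂ) • cst ℂ (fun I => lam i (y I)) := by
    funext I
    have hI : y I ∈ T := Submodule.subset_span ⟨I, rfl⟩
    have h1 := e.sum_repr ⟨y I, hI⟩
    have h2 := congrArg (fun x : T => (x : ℂ)) h1
    simp only [Submodule.coe_sum, Submodule.coe_smul] at h2
    rw [Finset.sum_apply]
    refine h2.symm.trans (Finset.sum_congr rfl fun i _ => ?_)
    have h3 := congrArg (fun f => f ⟨y I, hI⟩) (hlam i)
    change lam i (y I) = e.coord i _ at h3
    rw [Pi.smul_apply, cst_apply, h3, smul_eq_mul, mul_comm, Basis.coord_apply,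
      Algebra.smul_def]
    rfl
  rw [hy]
  exact Submodule.sum_mem _ fun i _ => Submodule.smul_mem _ _ (cst_mem_cx (h (lam i)))

end

end Pool.Agent.Y91.TT
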