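import Mathlib
import Pool.Agent.Y91.TT.Fix

/-!
# The theorem of the fixed part implies that invariant classes are Hodge classes
-/

set_option linter.unusedSectionVars false

namespace Pool.Agent.Y91.TT

open Matrix Equiv Module Pool.Agent.H204R3.SP Pool.Agent.H204R3.CM Pool.Agent.H194R3.CM
  Pool.Agent.W437.HC Pool.Agent.W437.HD Pool.Agent.W437.HP Pool.Agent.W437.HR
  Pool.Agent.W548.Odd Pool.Agent.TH125.Small Pool.Agent.TH131.GHC Pool.Agent.TH504.VL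
  Pool.Agent.TH504.VY

noncomputable section

section coord

variable {n : ℕ} {g : Fin n → ℕ}

/-- The coordinates on the complex homology. -/
def aC (g : Fin n → ℕ) : HV ℂ g →ₗ[ℂ] (Fin (NB g) ⊕ Fin (NB g) → ℂ) where
  toFun v := ∑ j, (cK ℂ (pm g ℚ j))ᵀ *ᵥ v j
  map_add' v w := by
    rw [← Finset.sum_add_distrib]
    exact Finset.sum_congr rfl fun j _ => mulVec_add _ _ _
  map_smul' r w := by
    rw [RingHom.id_apply, Finset.smul_sum]
    exact Finset.sum_congr rfl fun j _ => mulVec_smul _ r (w j)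

theorem aC_apply (v : HV ℂ g) : aC g v = ∑ j, (cK ℂ (pm g ℚ j))ᵀ *ᵥ v j := rfl

theorem aC_surj (x : Fin (NB g) ⊕ Fin (NB g) → ℂ) :
    aC g (fun j => cK ℂ (pm g ℚ j) *ᵥ x) = x := by
  rw [aC_apply]
  have h1 : ∀ j, (cK ℂ (pm g ℚ j))ᵀ *ᵥ (cK ℂ (pm g ℚ j) *ᵥ x) =
      ((cK ℂ (pm g ℚ j))ᵀ * cK ℂ (pm g ℚ j)) *ᵥ x := fun j => mulVec_mulVec _ _ _
  rw [Finset.sum_congr rfl (fun j _ => h1 j), ← sum_mulVec, pm_totC, one_mulVec]

theorem aC_D {Z : ∀ i, Matrix (Fin (g i)) (Fin (g i)) ℂ} (hZ : ∀ i, (Z i)ᵀ = Z i)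
    (hpos : ∀ i, (imM (Z i)).PosDef) (v : HV ℂ g) :
    aC g (fun j => DZ (Z j) *ᵥ v j) = DZ (bigD ℂ Z) *ᵥ aC g v := by
  rw [aC_apply, aC_apply, mulVec_sum]
  refine Finset.sum_congr rfl fun j _ => ?_
  rw [mulVec_mulVec, mulVec_mulVec, pmT_DZ Z hZ hpos]

/-- The block diagonal rational matrix. -/
def bigM (M : ∀ j, Matrix (Fin (g j) ⊕ Fin (g j)) (Fin (g j) ⊕ Fin (g j)) ℚ) :
    Matrix (Fin (NB g) ⊕ Fin (NB g)) (Fin (NB g) ⊕ Fin (NB g)) ℚ :=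
  ∑ j, (pm g ℚ j)ᵀ * M j * pm g ℚ j

theorem bigM_pmT (M : ∀ j, Matrix (Fin (g j) ⊕ Fin (g j)) (Fin (g j) ⊕ Fin (g j)) ℚ)
    (i : Fin n) : bigM M * (pm g ℚ i)ᵀ = (pm g ℚ i)ᵀ * M i := by
  unfold bigM
  rw [Matrix.sum_mul, Finset.sum_eq_single i]
  · rw [Matrix.mul_assoc, pm_same, Matrix.mul_one]
  · intro j _ hj
    rw [Matrix.mul_assoc, pm_off ℚ hj, Matrix.mul_zero]
  · intro h
    exact absurd (Finset.mem_univ _) h

theorem aC_M (M : ∀ j, Matrix (Fin (g j) ⊕ Fin (g j)) (Fin (g j) ⊕ Fin (g j)) ℚ) (v : HV ℂ g) :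
    aC g (fun j => cK ℂ (M j) *ᵥ v j) = cK ℂ (bigM M) *ᵥ aC g v := by
  rw [aC_apply, aC_apply, mulVec_sum]
  refine Finset.sum_congr rfl fun j _ => ?_
  rw [mulVec_mulVec, mulVec_mulVec, ← cK_transpose, ← cK_mul, ← cK_mul, bigM_pmT]

theorem aP_M (M : ∀ j, Matrix (Fin (g j) ⊕ Fin (g j)) (Fin (g j) ⊕ Fin (g j)) ℚ) (v : HV ℚ g) :
    aP g (fun j => M j *ᵥ v j) = bigM M *ᵥ aP g v := by
  change ∑ j, (pm g ℚ j)ᵀ *ᵥ (M j *ᵥ v j) = bigM M *ᵥ ∑ j, (pm g ℚ j)ᵀ *ᵥ v j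
  rw [mulVec_sum]
  refine Finset.sum_congr rfl fun j _ => ?_
  rw [mulVec_mulVec, mulVec_mulVec, bigM_pmT]

/-- The multilinear form with given coordinates. -/
def phi {k : ℕ} (y : (Fin k → Fin (NB g) ⊕ Fin (NB g)) → ℂ) :
    MultilinearMap ℂ (fun _ : Fin k => HV ℂ g) ℂ :=
  (mlF y).compLinearMap fun _ => aC g

theorem phi_apply {k : ℕ} (y : (Fin k → Fin (NB g) ⊕ Fin (NB g)) → ℂ) (v : Fin k → HV ℂ g) :
    phi y v = evalF y (fun l => aC g (v l)) := rfl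

theorem phi_inj {k : ℕ} {y z : (Fin k → Fin (NB g) ⊕ Fin (NB g)) → ℂ}
    (h : ∀ v, phi y v = phi z v) : y = z := by
  refine evalF_ext fun x => ?_
  have h1 := h fun l j => cK ℂ (pm g ℚ j) *ᵥ x l
  rw [phi_apply, phi_apply] at h1
  simp only [aC_surj] at h1
  exact h1

theorem phi_M {k : ℕ} (M : ∀ j, Matrix (Fin (g j) ⊕ Fin (g j)) (Fin (g j) ⊕ Fin (g j)) ℚ)
    (y : (Fin k → Fin (NB g) ⊕ Fin (NB g)) → ℂ) (v : Fin k → HV ℂ g) :
    phi y (fun l j => cK ℂ (M j) *ᵥ v l j) = phi (pull (cK ℂ (bigM M)) y) v := by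
  rw [phi_apply, phi_apply, evalF_pull]
  congr 1
  funext l
  exact aC_M M (v l)

theorem phi_D {Z : ∀ i, Matrix (Fin (g i)) (Fin (g i)) ℂ} (hZ : ∀ i, (Z i)ᵀ = Z i)
    (hpos : ∀ i, (imM (Z i)).PosDef) {k : ℕ}
    (y : (Fin k → Fin (NB g) ⊕ Fin (NB g)) → ℂ) (v : Fin k → HV ℂ g) :
    ∑ l, phi y (Function.update v l (fun j => DZ (Z j) *ᵥ v l j)) =
      phi (act (DZ (bigD ℂ Z)) y) v := by
  rw [phi_apply, evalF_act]
  refine Finset.sum_congr rfl fun l _ => ?_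
  rw [phi_apply]
  congr 1
  funext i
  by_cases h : i = l
  · subst h
    rw [Function.update_self, Function.update_self, aC_D hZ hpos]
  · rw [Function.update_of_ne h, Function.update_of_ne h]

/-- A rational form in coordinates. -/
theorem form_eq {κ : Type} [Fintype κ] [DecidableEq κ] (f : HV ℚ g [⋀^κ]→ₗ[ℚ] ℚ)
    {Z : ∀ i, Matrix (Fin (g i)) (Fin (g i)) ℂ} (hpos : ∀ i, (imM (Z i)).PosDef) (w : κ → HV ℚ g) :
    f w = evalF (cfE (EE g) f) (fun l => aP g (w l)) := by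
  have h := congrFun (expand1 (d := 0) (Z := fun i _ => Z i) (t₀ := fun x => x.elim0) hpos f) w
  exact h

end coord

section main

variable {n d : ℕ} {g : Fin n → ℕ} {U : Set (Fin d → ℂ)}
  {Z : ∀ i, (Fin d → ℂ) → Matrix (Fin (g i)) (Fin (g i)) ℂ} {t₀ : Fin d → ℂ} {k : ℕ}

/-- The theorem of the fixed part, for one group `Γ` of operators on the homology and tensors of
degree `k`. -/
def Fixed (U : Set (Fin d → ℂ)) (Z : ∀ i, (Fin d → ℂ) → Matrix (Fin (g i)) (Fin (g i)) ℂ)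
    (Γ : Set (∀ j, Matrix (Fin (g j) ⊕ Fin (g j)) (Fin (g j) ⊕ Fin (g j)) ℚ)) (k : ℕ) : Prop :=
  ∀ φ : MultilinearMap ℂ (fun _ : Fin k => HV ℂ g) ℂ,
    (∀ M ∈ Γ, ∀ v, φ (fun l j => cK ℂ (M j) *ᵥ v l j) = φ v) → ∀ s ∈ U, ∀ t ∈ U,
      (∀ v, ∑ l, φ (Function.update v l (fun j => DZ (Z j s) *ᵥ v l j)) =
        ∑ l, φ (Function.update v l (fun j => DZ (Z j t) *ᵥ v l j))) ∧
      ∀ M ∈ Γ, ∀ v, ∑ l, φ (Function.update (fun l j => cK ℂ (M j) *ᵥ v l j) l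
          (fun j => DZ (Z j t) *ᵥ (cK ℂ (M j) *ᵥ v l j))) =
        ∑ l, φ (Function.update v l (fun j => DZ (Z j t) *ᵥ v l j))

/-- Invariant classes are Hodge classes. -/
theorem isH_of_fixed (h : VeryGood U Z t₀)
    {Γ : Set (∀ j, Matrix (Fin (g j) ⊕ Fin (g j)) (Fin (g j) ⊕ Fin (g j)) ℚ)}
    (hfix : Fixed U Z Γ k) (f : HV ℚ g [⋀^Fin k]→ₗ[ℚ] ℚ)
    (hf : ∀ M ∈ Γ, ∀ w, f (fun l j => M j *ᵥ w l j) = f w) :
    IsH (DZ (bigD ℂ (fun i => Z i t₀))) (cfE (EE g) f) := by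
  let T : Submodule ℚ ((Fin k → Fin (NB g) ⊕ Fin (NB g)) → ℚ) :=
    { carrier := {x | ∀ M ∈ Γ, pull (bigM M) x = x}
      zero_mem' := fun M _ => pull_zero _
      add_mem' := by
        intro x y hx hy M hM
        refine evalF_ext fun z => ?_
        have h1 := congrArg (fun c => evalF c z) (hx M hM)
        have h2 := congrArg (fun c => evalF c z) (hy M hM)
        simp only [evalF_pull] at h1 h2 ⊢
        simp only [evalF, Pi.add_apply, add_mul, Finset.sum_add_distrib] at h1 h2 ⊢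
        rw [h1, h2]
      smul_mem' := by
        intro r x hx M hM
        refine evalF_ext fun z => ?_
        have h1 := congrArg (fun c => evalF c z) (hx M hM)
        simp only [evalF_pull] at h1 ⊢
        simp only [evalF, Pi.smul_apply, smul_eq_mul, mul_assoc, ← Finset.mul_sum] at h1 ⊢
        rw [h1] }
  have hT : ∀ x, x ∈ T ↔ ∀ M ∈ Γ, pull (bigM M) x = x := fun x => Iff.rfl
  -- complex invariants
  have hC : ∀ y : (Fin k → Fin (NB g) ⊕ Fin (NB g)) → ℂ,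
      (∀ M ∈ Γ, pull (cK ℂ (bigM M)) y = y) → y ∈ cx T := by
    intro y hy
    refine mem_cx_of T fun lam => (hT _).2 fun M hM => ?_
    funext I
    have h1 := congrArg lam (congrFun (hy M hM) I)
    rw [← h1]
    unfold pull
    rw [map_sum]
    refine Finset.sum_congr rfl fun J _ => ?_
    have h2 : (∏ l, cK ℂ (bigM M) (J l) (I l)) = (((∏ l, bigM M (J l) (I l)) : ℚ) : ℂ) := by
      push_cast
      rfl
    rw [h2, mul_comm (y J), ← Rat.smul_def, map_smul, smul_eq_mul, mul_comm]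
  have hinv : ∀ x ∈ T, ∀ M ∈ Γ, pull (cK ℂ (bigM M)) (cst ℂ x) = cst ℂ x := by
    intro x hx M hM
    rw [← cst_pull, hx M hM]
  have hphi : ∀ x ∈ T, ∀ M ∈ Γ, ∀ v, phi (cst ℂ x) (fun l j => cK ℂ (M j) *ᵥ v l j) =
      phi (cst ℂ x) v := by
    intro x hx M hM v
    rw [phi_M, hinv x hx M hM]
  have hx : cfE (EE g) f ∈ T := by
    rw [hT]
    intro M hM
    refine evalF_ext fun z => ?_
    rw [evalF_pull]
    have h1 : ∀ w : Fin k → HV ℚ g, f w = evalF (cfE (EE g) f) (fun l => aP g (w l)) :=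
      form_eq f (h.pos t₀ h.mem)
    have h2 := hf M hM fun l => sP g (z l)
    rw [h1, h1] at h2
    simp only [aP_M, aP_sP] at h2
    exact h2
  refine const_killed h T (fun x hx => hC _ fun M hM => ?_) (fun x hx t ht => ?_) _ hx
  · refine phi_inj fun v => ?_
    obtain ⟨-, h2⟩ := hfix (phi (cst ℂ x)) (hphi x hx) t₀ h.mem t₀ h.mem
    have h3 := h2 M hM v
    rw [phi_D (Z := fun i => Z i t₀) (h.symm t₀ h.mem) (h.pos t₀ h.mem)] at h3
    rw [← phi_M]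
    exact h3.trans (phi_D (Z := fun i => Z i t₀) (h.symm t₀ h.mem) (h.pos t₀ h.mem) _ _)
  · refine phi_inj fun v => ?_
    obtain ⟨h2, -⟩ := hfix (phi (cst ℂ x)) (hphi x hx) t ht t₀ h.mem
    have h3 := h2 v
    rw [phi_D (Z := fun i => Z i t) (h.symm t ht) (h.pos t ht),
      phi_D (Z := fun i => Z i t₀) (h.symm t₀ h.mem) (h.pos t₀ h.mem)] at h3
    exact h3

end main

end

end Pool.Agent.Y91.TT
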