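import Mathlib
import Pool.Agent.Y91.TT.Inv
import Pool.Agent.Y91.TT.Prod

/-!
# Tate classes on products of members of very general families of abelian varieties and varieties
-/

set_option linter.unusedSectionVars false

namespace Pool.Agent.Y91.TT

open Matrix Equiv Module Pool.Agent.H204R3.SP Pool.Agent.H204R3.CM Pool.Agent.H194R3.CM
  Pool.Agent.W437.HC Pool.Agent.W437.HD Pool.Agent.W437.HP Pool.Agent.W437.HR
  Pool.Agent.W548.Odd Pool.Agent.TH125.Small Pool.Agent.TH131.GHC Pool.Agent.TH504.VL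
  Pool.Agent.TH504.VY

noncomputable section

section wed

variable {F : Type} [Field F] {M : Type} [AddCommGroup M] [Module F M] {a k : ℕ}

/-- The exterior product of forms of degree two. -/
def wedA (e : Fin a × Fin 2 ≃ Fin k) (C : Fin a → M [⋀^Fin 2]→ₗ[F] F) : M [⋀^Fin k]→ₗ[F] F :=
  MultilinearMap.alternatization (prodM e C)

theorem wedA_apply (e : Fin a × Fin 2 ≃ Fin k) (C : Fin a → M [⋀^Fin 2]→ₗ[F] F)
    (v : Fin k → M) : wedA e C v = ∑ σ : Equiv.Perm (Fin k), ((Equiv.Perm.sign σ : ℤ) : F) *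
      ∏ l, C l ![v (σ (e (l, 0))), v (σ (e (l, 1)))] := by
  unfold wedA
  rw [MultilinearMap.alternatization_apply]
  refine Finset.sum_congr rfl fun σ _ => ?_
  rw [MultilinearMap.domDomCongr_apply, prodM_apply, Units.smul_def, zsmul_eq_mul]

theorem wedA_scale (e : Fin a × Fin 2 ≃ Fin k) {C : Fin a → M [⋀^Fin 2]→ₗ[F] F} {T : M → M}
    {x : F} (h : ∀ l (v : Fin 2 → M), C l (fun b => T (v b)) = x * C l v) (v : Fin k → M) :
    wedA e C (fun i => T (v i)) = x ^ a * wedA e C v := by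
  rw [wedA_apply, wedA_apply, Finset.mul_sum]
  refine Finset.sum_congr rfl fun σ _ => ?_
  have h1 : ∀ l, C l ![T (v (σ (e (l, 0)))), T (v (σ (e (l, 1))))] =
      x * C l ![v (σ (e (l, 0))), v (σ (e (l, 1)))] := by
    intro l
    rw [← h l]
    congr 1
    funext b
    fin_cases b <;> rfl
  rw [Finset.prod_congr rfl (fun l _ => h1 l), Finset.prod_mul_distrib, Finset.prod_const,
    Finset.card_univ, Fintype.card_fin]
  ring

theorem wedA_cast [CharZero F] {n : ℕ} {d : Fin n → ℕ} (e : Fin a × Fin 2 ≃ Fin k)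
    {C : Fin a → HV ℚ d [⋀^Fin 2]→ₗ[ℚ] ℚ} {C' : Fin a → HV F d [⋀^Fin 2]→ₗ[F] F}
    (h : ∀ l w, C' l (fun b => castV F (w b)) = ((C l w : ℚ) : F)) (w : Fin k → HV ℚ d) :
    wedA e C' (fun i => castV F (w i)) = ((∑ σ : Equiv.Perm (Fin k), (Equiv.Perm.sign σ : ℤ) *
      ∏ l, C l ![w (σ (e (l, 0))), w (σ (e (l, 1)))] : ℚ) : F) := by
  rw [wedA_apply]
  push_cast
  refine Finset.sum_congr rfl fun σ _ => ?_
  congr 1
  refine Finset.prod_congr rfl fun l _ => ?_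
  rw [← h l]
  congr 1
  funext b
  fin_cases b <;> rfl

end wed

variable {n d : ℕ} {g : Fin n → ℕ} {U : Set (Fin d → ℂ)}
  {Z : ∀ i, (Fin d → ℂ) → Matrix (Fin (g i)) (Fin (g i)) ℂ} {t₀ : Fin d → ℂ} {k : ℕ}
  {F : Type} [Field F] [CharZero F]

/-- The class of a divisor, with coefficients in `F`. -/
def IsDiv (F : Type) [Field F] [CharZero F] (U : Set (Fin d → ℂ))
    (Z : ∀ i, (Fin d → ℂ) → Matrix (Fin (g i)) (Fin (g i)) ℂ) (C' : HV F g [⋀^Fin 2]→ₗ[F] F) :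
    Prop :=
  ∃ C : HV ℚ g [⋀^Fin 2]→ₗ[ℚ] ℚ, (∀ t ∈ U, IsHodge (perProd (fun i => Z i t)) C) ∧
    ∀ w, C' (fun b => castV F (w b)) = ((C w : ℚ) : F)

theorem castV_M (M : ∀ j, Matrix (Fin (g j) ⊕ Fin (g j)) (Fin (g j) ⊕ Fin (g j)) ℚ)
    (w : HV ℚ g) : castV F (fun j => M j *ᵥ w j) =
      fun j => (M j).map (fun q : ℚ => (q : F)) *ᵥ castV F w j := by
  funext j b
  unfold castV
  simp only [mulVec, dotProduct, Matrix.map_apply]
  push_cast
  rfl

/-- **Tate classes on products.** -/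
theorem tate_main (h : VeryGood U Z t₀) {H : Type} [AddCommGroup H] [Module F H]
    {G : Type} [Group G] [TopologicalSpace G]
    (A : G → HV F g → HV F g) (χ : G →* Fˣ) (R : Representation F G H)
    (hmono : ∀ Δ : Subgroup G, IsOpen (Δ : Set G) →
      ∃ Γ : Set (∀ j, Matrix (Fin (g j) ⊕ Fin (g j)) (Fin (g j) ⊕ Fin (g j)) ℚ),
        Fixed U Z Γ k ∧ ∀ M ∈ Γ, ∃ σ ∈ Δ,
          (∀ v j, A σ v j = (M j).map (fun q : ℚ => (q : F)) *ᵥ v j) ∧ χ σ = 1 ∧
            ∀ x, R σ x = x)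
    (hdiv : ∀ C' : HV F g [⋀^Fin 2]→ₗ[F] F, IsDiv F U Z C' →
      ∃ Δ : Subgroup G, IsOpen (Δ : Set G) ∧ ∀ σ ∈ Δ, ∀ v : Fin 2 → HV F g,
        C' (fun b => A σ (v b)) = (χ σ : F) * C' v)
    {m : ℤ} (f : HV F g [⋀^Fin k]→ₗ[F] H)
    (hf : ∃ Δ : Subgroup G, IsOpen (Δ : Set G) ∧ ∀ σ ∈ Δ, ∀ v : Fin k → HV F g,
      f (fun l => A σ (v l)) = ((χ σ ^ m : Fˣ) : F) • R σ (f v)) :
    f ∈ Submodule.span F {f' : HV F g [⋀^Fin k]→ₗ[F] H | ∃ (a : ℕ) (e : Fin a × Fin 2 ≃ Fin k)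
      (C : Fin a → HV F g [⋀^Fin 2]→ₗ[F] F) (x : H), (∀ l, IsDiv F U Z (C l)) ∧
      (∃ Δ : Subgroup G, IsOpen (Δ : Set G) ∧ ∀ σ ∈ Δ,
        x = ((χ σ ^ (m - a) : Fˣ) : F) • R σ x) ∧
      ∀ v, f' v = (∑ σ : Equiv.Perm (Fin k), ((Equiv.Perm.sign σ : ℤ) : F) *
        ∏ l, C l ![v (σ (e (l, 0))), v (σ (e (l, 1)))]) • x} := by
  classical
  obtain ⟨Δ₀, hΔ₀, hf⟩ := hf
  let _ : Module ℚ H := Module.compHom H (algebraMap ℚ F)
  have hc : ∀ (r : ℚ) (x : H), r • x = (r : F) • x := by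
    intro r x
    change (algebraMap ℚ F r) • x = _
    rw [eq_ratCast]
  obtain ⟨Γ, hfix, hΓ⟩ := hmono Δ₀ hΔ₀
  have hinv : ∀ M ∈ Γ, ∀ w : Fin k → HV ℚ g,
      restr hc f (fun l j => M j *ᵥ w l j) = restr hc f w := by
    intro M hM w
    obtain ⟨σ, hσ, hA, hχ, hR⟩ := hΓ M hM
    rw [restr_apply, restr_apply]
    have h1 : (fun l => castV F ((fun l j => M j *ᵥ w l j : Fin k → HV ℚ g) l)) =
        fun l => A σ (castV F (w l)) := by
      funext l j
      rw [hA]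
      exact congrFun (castV_M M (w l)) j
    rw [h1, hf σ hσ, hχ, hR, _root_.one_zpow, Units.val_one, one_smul]
  have hspan : ∀ lam : H →ₗ[ℚ] ℚ, lam.compAlternatingMap (restr hc f) ∈
      divisorSpan (perProd (fun i => Z i t₀)) k := by
    intro lam
    refine h.mem_span (isH_of_fixed h hfix _ fun M hM w => ?_) h.mem
    rw [LinearMap.compAlternatingMap_apply, LinearMap.compAlternatingMap_apply, hinv M hM w]
  obtain ⟨N, D, x, hD, hli, hφ⟩ := exists_decomposition (restr hc f) _ hspan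
  choose a e C hC hDC using hD
  choose C' hC' using fun j l => exists_ext F (C j l)
  have hdivC : ∀ j l, IsDiv F U Z (C' j l) := by
    intro j l
    refine ⟨C j l, fun t ht => ?_, hC' j l⟩
    exact Pool.Agent.TH125.isHodge_transport (Z := fun i => Z i t₀) (Z' := fun i => Z i t)
      (h.pos t₀ h.mem) (h.pos t ht) (h.lie t ht) (n := n) (fun i => i) (hC j l)
  have hD' : ∀ j (w : Fin k → HV ℚ g), wedA (e j) (C' j) (fun i => castV F (w i)) =
      ((D j w : ℚ) : F) := by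
    intro j w
    rw [wedA_cast (e j) (fun l w => hC' j l w), hDC j w]
  choose Δ hΔ hΔdiv using fun j l => hdiv (C' j l) (hdivC j l)
  have hscale : ∀ j, ∀ σ : G, (∀ l, σ ∈ Δ j l) → ∀ v : Fin k → HV F g,
      wedA (e j) (C' j) (fun i => A σ (v i)) = (χ σ : F) ^ (a j) * wedA (e j) (C' j) v := by
    intro j σ hσ v
    exact wedA_scale (e j) (T := A σ) (fun l v => hΔdiv j l σ (hσ l) v) v
  -- the common open subgroup
  let Δ' : Subgroup G := Δ₀ ⊓ ⨅ p : (Σ j, Fin (a j)), Δ p.1 p.2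
  have hΔ' : IsOpen (Δ' : Set G) := by
    change IsOpen ((Δ₀ ⊓ ⨅ p : (Σ j, Fin (a j)), Δ p.1 p.2 : Subgroup G) : Set G)
    rw [Subgroup.coe_inf, Subgroup.coe_iInf]
    exact hΔ₀.inter (isOpen_iInter_of_finite fun p => hΔ p.1 p.2)
  have hmem : ∀ σ ∈ Δ', σ ∈ Δ₀ ∧ ∀ j l, σ ∈ Δ j l := by
    intro σ hσ
    refine ⟨hσ.1, fun j l => ?_⟩
    have h1 := hσ.2
    have h2 : σ ∈ (⨅ p : (Σ j, Fin (a j)), Δ p.1 p.2) := h1
    rw [Subgroup.mem_iInf] at h2
    exact h2 ⟨j, l⟩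
  have hall : ∀ v : Fin k → HV F g, f v = ∑ j, wedA (e j) (C' j) v • x j := by
    intro v
    let ψ : MultilinearMap F (fun _ : Fin k => HV F g) H :=
      ∑ j, ((wedA (e j) (C' j) : HV F g [⋀^Fin k]→ₗ[F] F) :
        MultilinearMap F (fun _ : Fin k => HV F g) F).smulRight (x j)
    have h2 : (f : MultilinearMap F (fun _ : Fin k => HV F g) H) = ψ := by
      refine ext_rat F fun w => ?_
      change f (fun l => castV F (w l)) = ψ (fun l => castV F (w l))
      rw [← restr_apply hc, hφ w]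
      simp only [ψ, _root_.sum_apply, MultilinearMap.smulRight_apply]
      refine Finset.sum_congr rfl fun j _ => ?_
      rw [hc]
      congr 1
      exact (hD' j w).symm
    have h3 := congrArg (fun ψ => ψ v) h2
    simp only [ψ, _root_.sum_apply, MultilinearMap.smulRight_apply] at h3
    exact h3
  have hx : ∀ j, ∀ σ ∈ Δ', ((χ σ : F) ^ (a j)) • x j = ((χ σ ^ m : Fˣ) : F) • R σ (x j) := by
    intro j σ hσ
    obtain ⟨h0, h1⟩ := hmem σ hσ
    rw [← sub_eq_zero]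
    refine coeff_zero hli (u := fun j => ((χ σ : F) ^ (a j)) • x j -
      ((χ σ ^ m : Fˣ) : F) • R σ (x j)) (fun w => ?_) j
    have h2 := hf σ h0 fun l => castV F (w l)
    rw [hall, hall, map_sum, Finset.smul_sum, ← sub_eq_zero, ← Finset.sum_sub_distrib] at h2
    rw [← h2]
    refine Finset.sum_congr rfl fun j _ => ?_
    rw [hscale j σ (h1 j), hD', map_smul, smul_sub, hc, hc]
    congr 1
    · rw [smul_smul, mul_comm]
    · rw [smul_comm]
  have hf2 : f = ∑ j, (LinearMap.toSpanSingleton F H (x j)).compAlternatingMap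
      (wedA (e j) (C' j)) := by
    refine AlternatingMap.ext fun v => ?_
    rw [hall v, alt_sum_apply]
    rfl
  rw [hf2]
  refine Submodule.sum_mem _ fun j _ => Submodule.subset_span ?_
  refine ⟨a j, e j, C' j, x j, hdivC j, ⟨Δ', hΔ', fun σ hσ => ?_⟩, fun v => ?_⟩
  · have h1 := hx j σ hσ
    have h2 : ((χ σ ^ (m - a j) : Fˣ) : F) • R σ (x j) =
        ((χ σ ^ (-(a j : ℤ)) : Fˣ) : F) • (((χ σ ^ m : Fˣ) : F) • R σ (x j)) := by
      rw [smul_smul, ← Units.val_mul, ← _root_.zpow_add]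
      congr 3
      ring
    rw [h2, ← h1, smul_smul]
    have h3 : ((χ σ ^ (-(a j : ℤ)) : Fˣ) : F) * (χ σ : F) ^ (a j) = 1 := by
      rw [← Units.val_pow_eq_pow_val, ← Units.val_mul, _root_.zpow_neg, _root_.zpow_natCast, inv_mul_cancel,
        Units.val_one]
    rw [h3, one_smul]
  · rw [LinearMap.compAlternatingMap_apply, wedA_apply]
    rfl

end

end Pool.Agent.Y91.TT
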