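import Mathlib
import Pool.Agent.Y91.TT.Tate

/-!
# Families over open sets of the complex numbers
-/

set_option linter.unusedSectionVars false

namespace Pool.Agent.Y91.TT

open Matrix Equiv Module Pool.Agent.H204R3.SP Pool.Agent.H204R3.CM Pool.Agent.H194R3.CM
  Pool.Agent.W437.HC Pool.Agent.W437.HD Pool.Agent.W437.HP Pool.Agent.W437.HR
  Pool.Agent.W548.Odd Pool.Agent.TH125.Small Pool.Agent.TH131.GHC Pool.Agent.TH504.VL
  Pool.Agent.TH504.VY

noncomputable section

variable {n : ℕ} {g : Fin n → ℕ}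

/-- Families over connected open sets of the complex numbers have very general points. -/
theorem exists_veryGood_one {U : Set ℂ} (hU : IsOpen U) (hc : IsPreconnected U)
    (hne : U.Nonempty) (Z : ∀ i, ℂ → Matrix (Fin (g i)) (Fin (g i)) ℂ)
    (hol : ∀ i a b, DifferentiableOn ℂ (fun t => Z i t a b) U)
    (hper : ∀ i, ∀ t ∈ U, (Z i t)ᵀ = Z i t ∧ (imM (Z i t)).PosDef)
    (hnc : ∀ i, ∃ s ∈ U, ∃ t ∈ U, Z i s ≠ Z i t)
    (hgood : ∀ i, ∃ E : Set ℂ, E.Countable ∧ ∀ t ∈ U, t ∉ E →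
      HasPcs (DZ (Z i t)) ∧ IsSimpleAV (Z i t)) :
    ∃ t₀ : Fin 1 → ℂ, VeryGood {x : Fin 1 → ℂ | x 0 ∈ U} (fun i x => Z i (x 0)) t₀ := by
  have hYb : ∀ t ∈ U, IsUnit (imM (bigD ℂ (fun i => Z i t))).det := fun t ht =>
    (imM_bigD_posDef (fun i => Z i t) fun i => (hper i t ht).2).isUnit.map
      Matrix.detMonoidHom
  have hbol : ∀ a b, DifferentiableOn ℂ (fun t => bigD ℂ (fun i => Z i t) a b) U := by
    intro a b
    unfold bigD
    simp only [Matrix.sum_apply, Matrix.mul_apply, Matrix.transpose_apply]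
    refine DifferentiableOn.fun_sum fun i _ => DifferentiableOn.fun_sum fun x _ => ?_
    refine DifferentiableOn.mul ?_ (differentiableOn_const _)
    refine DifferentiableOn.fun_sum fun y _ => ?_
    exact DifferentiableOn.mul (differentiableOn_const _) (hol i _ _)
  obtain ⟨E, hE, hEt⟩ := exists_exceptional hU hc (fun t => bigD ℂ (fun i => Z i t)) hbol hYb
  choose E' hE' hEt' using hgood
  have hcount : (E ∪ ⋃ i, E' i).Countable := hE.union (Set.countable_iUnion hE')
  obtain ⟨t, htU, htE⟩ : ∃ t ∈ U, t ∉ E ∪ ⋃ i, E' i := by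
    obtain ⟨t, ht1, ht2⟩ := (hcount.dense_compl ℂ).inter_open_nonempty U hU hne
    exact ⟨t, ht1, ht2⟩
  simp only [Set.mem_union, Set.mem_iUnion, not_or, not_exists] at htE
  refine ⟨fun _ => t, ⟨htU, fun s hs i => (hper i _ hs).1, fun s hs i => (hper i _ hs).2,
    fun i => (hEt' i t htU (htE.2 i)).1, fun s hs => hEt t htU htE.1 _ hs,
    fun i => (hEt' i t htU (htE.2 i)).2, fun i => ?_⟩⟩
  by_contra hcon
  push Not at hcon
  obtain ⟨a, ha, b, hb, hab⟩ := hnc i
  exact hab ((hcon (fun _ => a) ha).trans (hcon (fun _ => b) hb).symm)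

end

end Pool.Agent.Y91.TT
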